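import Pool.Agent.H.MP_bf2f06_lc.Ex

open Filter Topology Pool.Agent.H.MP_bf2f06_lc

namespace Pool.Agent.Results.MP_76d60e_lc.No

theorem result : ∃ G : SimpleGraph (Fin 9), G.Connected ∧ ¬ G.IsHamiltonian ∧
    Tendsto (fun n : ℕ => (cost G n : ℝ) / n) atTop (𝓝 (9 / 2)) ∧
      Tendsto (fun n : ℕ => (costAll G n : ℝ) / n) atTop (𝓝 (9 / 2)) :=
  ⟨G9, G9_conn, G9_nonham, G9_lim⟩

end Pool.Agent.Results.MP_76d60e_lc.No
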